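import Pool.Agent.H971.EX.Atom2

/-! `MP_939494_pr`: if the `Λ`-coalescent comes down from infinity, then almost surely no two
ancestral types of the `Λ`-Fleming-Viot process become extinct at the same time, if and only if `Λ`
has no atom at `1`. -/

open MeasureTheory ProbabilityTheory Filter Topology Set
open scoped ENNReal NNReal unitInterval

universe u

namespace Pool.Agent.Results.MP_939494_pr.NoSimultaneousExtinction

open Pool.Agent.H971.FV (testFun generator)
open Pool.Agent.H971.EX (ComesDown Ancestral extinctionTime FVF)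

/-- The generator of the `Λ`-Fleming-Viot process on `G_f(ρ) = ∏_i ∫ f_i dρ`: the jump part
`generator Λ f ρ = ∫_{(0,1]} u⁻² Λ(du) ∫ ρ(dx) (G_f((1-u) ρ + u δ_x) - G_f(ρ))` plus `Λ({0})` times
the Kingman part, in which every pair of factors is merged at rate `1`. -/
noncomputable def fvGenerator (Λ : Measure ℝ) {n : ℕ} (f : Fin n → C(I, ℝ))
    (ρ : ProbabilityMeasure I) : ℝ :=
  generator Λ f ρ + Λ.real {0} * ∑ S ∈ (Finset.univ : Finset (Fin n)).powersetCard 2,
    ((∫ x, ∏ i ∈ S, f i x ∂(ρ : Measure I)) *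
      (∏ i ∈ Finset.univ \ S, ∫ y, f i y ∂(ρ : Measure I)) - testFun f ρ)

/-- `ρ` is a `Λ`-Fleming-Viot process started from Lebesgue measure on `[0,1]`: it takes its values
in the probability measures on `[0,1]` with the weak topology, is càdlàg, starts from Lebesgue
measure, and solves the (well-posed) martingale problem for the generator. -/
structure IsFlemingViot (Λ : Measure ℝ) {Ω : Type*} [mΩ : MeasurableSpace Ω] (P : Measure Ω)
    (ρ : ℝ≥0 → Ω → ProbabilityMeasure I) : Prop where
  /-- right-continuity of the paths -/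
  right_cont : ∀ ω t, ContinuousWithinAt (fun s => ρ s ω) (Ici t) t
  /-- left limits of the paths -/
  left_lim : ∀ ω t, ∃ l, Tendsto (fun s => ρ s ω) (𝓝[<] t) (𝓝 l)
  /-- initial value -/
  init : ∀ᵐ ω ∂P, (ρ 0 ω : Measure I) = volume
  /-- adaptedness and martingale problem -/
  martingale : ∃ 𝓕 : Filtration ℝ≥0 mΩ, (∀ t, Measurable[𝓕 t] (ρ t)) ∧
    ∀ (n : ℕ) (f : Fin n → C(I, ℝ)), Martingale
      (fun t ω => testFun f (ρ t ω) - ∫ s in (0 : ℝ)..t, fvGenerator Λ f (ρ s.toNNReal ω)) 𝓕 P

/-- The event `E`: two distinct ancestral types have the same extinction time. -/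
def SimultaneousExtinction (p : ℝ≥0 → ProbabilityMeasure I) : Prop :=
  ∃ x y : I, x ≠ y ∧ Ancestral p x ∧ Ancestral p y ∧ extinctionTime p x = extinctionTime p y

/-- Let `Λ ≠ 0` be a finite measure on `[0,1]` whose coalescent comes down from infinity. Then the
event that two distinct ancestral types of the `Λ`-Fleming-Viot process started from Lebesgue
measure have the same extinction time is a null event if and only if `Λ({1}) = 0`. -/
theorem result (Λ : Measure ℝ) [IsFiniteMeasure Λ] (hΛ : Λ ≠ 0) (hsupp : Λ (Icc 0 1)ᶜ = 0)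
    (hcdi : ComesDown Λ)
    (Ω : Type u) [MeasurableSpace Ω] (P : Measure Ω) [IsProbabilityMeasure P]
    (ρ : ℝ≥0 → Ω → ProbabilityMeasure I) (h : IsFlemingViot Λ P ρ) :
    (∀ᵐ ω ∂P, ¬ SimultaneousExtinction (fun t => ρ t ω)) ↔ Λ {1} = 0 := by
  obtain ⟨𝓕, hm, hM⟩ := h.martingale
  have hF : FVF Λ P ρ 𝓕 := ⟨h.right_cont, hm, hM⟩
  have hD := Pool.Agent.H971.EX.down_of_comesDown hcdi
  constructor
  · intro hE
    by_contra h1
    refine hF.simultaneous h.init hD h1 ?_
    filter_upwards [hE] with ω hω x y hxy hx hy heq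
    exact hω ⟨x, y, hxy, hx, hy, heq⟩
  · intro h1
    filter_upwards [hF.main h.init hD (Pool.Agent.H971.EX.rate_two hΛ hsupp) h1]
      with ω hω
    rintro ⟨x, y, hxy, hx, _, heq⟩
    exact hω x y hxy hx heq

end Pool.Agent.Results.MP_939494_pr.NoSimultaneousExtinction
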